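import Pool.Agent.MP_d5a48f_an.H16.Field
import Pool.Agent.MP_d5a48f_an.H16.Traj

set_option autoImplicit false

open Real Set

namespace Pool.Agent.Results.MP_d5a48f_an.CellularStretch

open Pool.Agent.MP_d5a48f_an.H16

/-- The covering map from the Euclidean plane to the flat torus with period two pi. -/
noncomputable def toTorus (x : EuclideanSpace ℝ (Fin 2)) :
    PiLp 2 (fun _ : Fin 2 => AddCircle (2 * Real.pi)) :=
  WithLp.toLp 2 (fun i => ((x i : ℝ) : AddCircle (2 * Real.pi)))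

lemma toTorus_apply (x : EuclideanSpace ℝ (Fin 2)) (i : Fin 2) :
    toTorus x i = ((x i : ℝ) : AddCircle (2 * π)) := rfl

lemma toTorus_lipschitz : LipschitzWith 1 toTorus := by
  apply LipschitzWith.of_dist_le_mul
  intro x y
  rw [NNReal.coe_one, one_mul, PiLp.dist_eq_of_L2, PiLp.dist_eq_of_L2]
  apply Real.sqrt_le_sqrt
  apply Finset.sum_le_sum
  intro i _
  apply pow_le_pow_left₀ dist_nonneg
  rw [toTorus_apply, toTorus_apply, dist_eq_norm, dist_eq_norm, ← AddCircle.coe_sub]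
  exact QuotientAddGroup.norm_mk_le_norm

lemma abs_sin_sub_le_dist (x y : EuclideanSpace ℝ (Fin 2)) :
    |sin (x 0) - sin (y 0)| ≤ dist (toTorus x) (toTorus y) := by
  refine le_trans ?_ (PiLp.dist_apply_le (toTorus x) (toTorus y) 0)
  rw [toTorus_apply, toTorus_apply, dist_eq_norm, ← AddCircle.coe_sub, AddCircle.norm_eq,
    ← sin_add_int_mul_two_pi (y 0) (round ((2 * π)⁻¹ * (x 0 - y 0)))]
  refine (abs_sin_sub_sin_le _ _).trans (le_of_eq ?_)
  congr 1; ring

lemma exists_shift {x y : EuclideanSpace ℝ (Fin 2)} (h : toTorus x = toTorus y) (i : Fin 2) :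
    ∃ k : ℤ, x i = y i + k * (2 * π) := by
  have h1 : ((x i : ℝ) : AddCircle (2 * π)) = ((y i : ℝ) : AddCircle (2 * π)) := by
    rw [← toTorus_apply, ← toTorus_apply, h]
  obtain ⟨k, hk⟩ := Real.Angle.angle_eq_iff_two_pi_dvd_sub.1 h1
  exact ⟨k, by linarith⟩

lemma U_descends {x y : EuclideanSpace ℝ (Fin 2)} (h : toTorus x = toTorus y) :
    U x = U y ∧ Pr x = Pr y := by
  obtain ⟨k0, h0⟩ := exists_shift h 0
  obtain ⟨k1, h1⟩ := exists_shift h 1
  constructor
  · simp only [U, h0, h1, sin_add_int_mul_two_pi, cos_add_int_mul_two_pi]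
  · simp only [Pr, h0, h1, sin_add_int_mul_two_pi]

lemma toTorus_add {x y : EuclideanSpace ℝ (Fin 2)} (h : toTorus x = toTorus y)
    (z : EuclideanSpace ℝ (Fin 2)) : toTorus (z + (x - y)) = toTorus z := by
  ext i
  have h1 : ((x i : ℝ) : AddCircle (2 * π)) = ((y i : ℝ) : AddCircle (2 * π)) := by
    rw [← toTorus_apply, ← toTorus_apply, h]
  simp [toTorus_apply, h1]

section flow
variable {Φ : ℝ → EuclideanSpace ℝ (Fin 2) → EuclideanSpace ℝ (Fin 2)}
  (h0 : ∀ x, Φ 0 x = x) (hΦ : ∀ t x, HasDerivAt (fun s => Φ s x) (U (Φ t x)) t)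
include h0 hΦ

lemma flow_descends (t : ℝ) {x y : EuclideanSpace ℝ (Fin 2)} (h : toTorus x = toTorus y) :
    toTorus (Φ t x) = toTorus (Φ t y) := by
  have key : (fun s => Φ s x) = fun s => Φ s y + (x - y) := by
    refine ODE_solution_unique_univ (v := fun _ => U) (s := fun _ => univ) (K := 1) (t₀ := 0)
      (fun _ => U_lipschitz.lipschitzOnWith) (fun s => ⟨hΦ s x, mem_univ _⟩)
      (fun s => ⟨?_, mem_univ _⟩) (by simp [h0])
    rw [(U_descends (toTorus_add h (Φ s y))).1]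
    exact (hΦ s y).add_const _
  rw [congrFun key t, toTorus_add h]

lemma flow_lipschitz (t : ℝ) (ht : 0 ≤ t) : LipschitzWith ⟨exp t, (exp_pos t).le⟩ (Φ t) := by
  apply LipschitzWith.of_dist_le_mul
  intro x y
  have := dist_le_of_trajectories_ODE (v := fun _ => U) (K := 1) (a := 0) (b := t)
    (f := fun s => Φ s x) (g := fun s => Φ s y) (δ := dist x y) (fun _ => U_lipschitz)
    (fun s _ => (hΦ s x).continuousAt.continuousWithinAt)
    (fun s _ => (hΦ s x).hasDerivWithinAt)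
    (fun s _ => (hΦ s y).continuousAt.continuousWithinAt)
    (fun s _ => (hΦ s y).hasDerivWithinAt) (by simp [h0]) t ⟨ht, le_rfl⟩
  change _ ≤ exp t * dist x y
  simpa [mul_comm] using this

omit h0 in
lemma flow_x (z : EuclideanSpace ℝ (Fin 2)) (t : ℝ) :
    HasDerivAt (fun s => Φ s z 0) (sin (Φ t z 0) * cos (Φ t z 1)) t := by
  have h := (hasFDerivAt_coord (Φ t z) 0).comp_hasDerivAt t (hΦ t z)
  simpa [Function.comp_def] using h

omit h0 in
lemma flow_y (z : EuclideanSpace ℝ (Fin 2)) (t : ℝ) :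
    HasDerivAt (fun s => Φ s z 1) (-(cos (Φ t z 0) * sin (Φ t z 1))) t := by
  have h := (hasFDerivAt_coord (Φ t z) 1).comp_hasDerivAt t (hΦ t z)
  simpa [Function.comp_def] using h

/-- One oscillation of small amplitude is stretched. -/
lemma one_osc (δ t A : ℝ) (hδ0 : 0 < δ) (hδ : δ ≤ 1 / 2) (ht : 0 ≤ t)
    (z w : EuclideanSpace ℝ (Fin 2)) (hz : z 0 = 0) (hw : |w 0| * exp t ≤ δ) (hA : A ≤ |w 0|)
    (hw1 : |w 1| ≤ δ) :
    2 / π * A * exp ((1 - δ ^ 2) ^ 2 * t) ≤ dist (toTorus (Φ t w)) (toTorus (Φ t z)) := by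
  refine le_trans ?_ (abs_sin_sub_le_dist _ _)
  have hz' : sin (Φ t z 0) = 0 :=
    sin_zero_of (x := fun s => Φ s z 0) (y := fun s => Φ s z 1) (flow_x hΦ z) t ht
      (by simp [h0, hz])
  rw [hz', sub_zero]
  have he : 1 ≤ exp t := one_le_exp ht
  have hw0 : |w 0| ≤ 1 / 2 := by nlinarith [abs_nonneg (w 0)]
  have hpi := pi_gt_three
  have h1 := abs_sin_lower (x := fun s => Φ s w 0) (y := fun s => Φ s w 1) (flow_x hΦ w)
    (flow_y hΦ w) δ t (by nlinarith) ht
    (by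
      simp only [h0]
      exact le_trans (mul_le_mul_of_nonneg_right abs_sin_le_abs (exp_pos t).le) hw)
    (by
      simp only [h0]
      apply cos_pos_of_mem_Ioo
      have := abs_le.1 hw0
      constructor <;> linarith [this.1, this.2])
    (by
      simp only [h0]
      refine le_trans ?_ one_sub_sq_div_two_le_cos
      have : w 1 ^ 2 ≤ δ ^ 2 := by
        rw [← sq_abs]; gcongr
      nlinarith [sq_nonneg (w 1)])
  simp only [h0] at h1
  refine le_trans ?_ h1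
  gcongr
  refine le_trans ?_ (mul_abs_le_abs_sin (by linarith))
  gcongr

end flow

/-- The curve. -/
noncomputable def curve (b k : ℕ) (δ : ℝ) (s : ℝ) : EuclideanSpace ℝ (Fin 2) :=
  !₂[osc b k 1 0 s, δ * s]

@[simp] lemma curve_zero (b k : ℕ) (δ s : ℝ) : curve b k δ s 0 = osc b k 1 0 s := by
  simp [curve]

@[simp] lemma curve_one (b k : ℕ) (δ s : ℝ) : curve b k δ s 1 = δ * s := by
  simp [curve]

lemma curve_contDiff (b r k : ℕ) (hk : r * (b + 1) + 1 ≤ k) (δ : ℝ) :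
    ContDiff ℝ r (curve b k δ) := by
  rw [contDiff_euclidean]
  intro i
  fin_cases i
  · simp only [Fin.zero_eta, curve_zero]; exact osc_contDiff b r k hk 1 0
  · simp only [Fin.mk_one, curve_one]; fun_prop

lemma osc_rpow (b k : ℕ) (hb : 1 ≤ b) (w : ℝ) (hw : 0 < w) :
    osc b k 1 0 (w ^ (-(1 / b : ℝ))) = w ^ (-(k / b : ℝ)) * sin (π * w) := by
  have hb' : (b : ℝ) ≠ 0 := by positivity
  have h1 : (w ^ (-(1 / b : ℝ))) ^ b = w⁻¹ := by
    rw [← rpow_natCast, ← rpow_mul hw.le, ← rpow_neg_one]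
    congr 1; field_simp
  have h2 : (w ^ (-(1 / b : ℝ))) ^ k = w ^ (-(k / b : ℝ)) := by
    rw [← rpow_natCast, ← rpow_mul hw.le]
    congr 1; field_simp
  rw [osc, h1, h2]
  simp

lemma growth {Φ : ℝ → EuclideanSpace ℝ (Fin 2) → EuclideanSpace ℝ (Fin 2)}
    (h0 : ∀ x, Φ 0 x = x) (hΦ : ∀ t x, HasDerivAt (fun s => Φ s x) (U (Φ t x)) t)
    (b k : ℕ) (hb : 1 ≤ b) (hk : 1 ≤ k) (δ : ℝ) (hδ0 : 0 < δ) (hδ : δ ≤ 1 / 2)
    (t : ℝ) (ht : 0 ≤ t) :
    ENNReal.ofReal (2 / π * 4 ^ (-(k / b : ℝ)) * δ * exp ((b / k - 1 + (1 - δ ^ 2) ^ 2) * t)) ≤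
      eVariationOn (toTorus ∘ Φ t ∘ curve b k δ) (Icc 0 1) := by
  have hb' : (0 : ℝ) < b := by exact_mod_cast hb
  have hk' : (0 : ℝ) < k := by exact_mod_cast hk
  set F := toTorus ∘ Φ t ∘ curve b k δ with hF
  set σ : ℝ → ℝ := fun w => w ^ (-(1 / b : ℝ)) with hσ
  set E : ℝ := exp t / δ with hE
  have he : 1 ≤ exp t := one_le_exp ht
  have hEe : exp t ≤ E := by
    rw [hE, le_div_iff₀ hδ0]; nlinarith
  have hE1 : 1 ≤ E := he.trans hEe
  have hE0 : 0 < E := by linarith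
  set M : ℝ := E ^ (b / k : ℝ) with hM
  have hM1 : 1 ≤ M := one_le_rpow hE1 (by positivity)
  set N : ℕ := ⌈M⌉₊ with hN
  have hMN : M ≤ N := Nat.le_ceil M
  have hNM : (N : ℝ) ≤ 2 * M := by
    have := Nat.ceil_lt_add_one (show 0 ≤ M by linarith)
    linarith
  have hMK : M ^ (-(k / b : ℝ)) = E⁻¹ := by
    rw [hM, ← rpow_mul hE0.le, ← rpow_neg_one]
    congr 1; field_simp
  have hanti : AntitoneOn σ (Ici 1) := by
    intro x hx y hy hxy
    exact rpow_le_rpow_of_nonpos (lt_of_lt_of_le zero_lt_one hx) hxy (by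
      have : (0 : ℝ) ≤ 1 / b := by positivity
      linarith)
  have hmaps : MapsTo σ (Ici 1) (Icc 0 1) := by
    intro x hx
    have hx0 : (0 : ℝ) ≤ x := le_trans zero_le_one hx
    refine ⟨rpow_nonneg hx0 _, rpow_le_one_of_one_le_of_nonpos hx ?_⟩
    have : (0 : ℝ) ≤ 1 / b := by positivity
    linarith
  refine le_trans ?_ (eVariationOn.comp_le_of_antitoneOn F σ hanti hmaps)
  have hI : Monotone fun i : ℕ => (N : ℝ) + i := fun i j hij => by
    have : (i : ℝ) ≤ j := by exact_mod_cast hij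
    simpa using this
  have hsub : Icc ((N : ℝ) + (0 : ℕ)) ((N : ℝ) + (N : ℕ)) ⊆ Ici 1 := by
    intro x hx
    have := hx.1
    simp only [Nat.cast_zero, add_zero] at this
    exact le_trans (hM1.trans hMN) this
  refine le_trans ?_ (eVariationOn.mono _ hsub)
  rw [← eVariationOn.sum' (F ∘ σ) hI]
  set A : ℝ := 2 / π * (4 ^ (-(k / b : ℝ)) * E⁻¹) * exp ((1 - δ ^ 2) ^ 2 * t) with hA
  have hterm : ∀ i ∈ Finset.range N, ENNReal.ofReal A ≤
      eVariationOn (F ∘ σ) (Icc ((N : ℝ) + (i : ℕ)) ((N : ℝ) + (i + 1 : ℕ))) := by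
    intro i hi
    have hiN : (i : ℝ) + 1 ≤ N := by exact_mod_cast Finset.mem_range.1 hi
    have hi0 : (0 : ℝ) ≤ i := by positivity
    refine le_trans ?_ (eVariationOn.edist_le (F ∘ σ) (x := (N : ℝ) + i + 1 / 2)
      (y := (N : ℝ) + i) (by push_cast; constructor <;> linarith)
      (by push_cast; constructor <;> linarith))
    rw [edist_dist]
    apply ENNReal.ofReal_le_ofReal
    have hw0 : (0 : ℝ) < N + i := by linarith
    have hw1 : (0 : ℝ) < N + i + 1 / 2 := by linarith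
    have habs : |curve b k δ (σ ((N : ℝ) + i + 1 / 2)) 0| =
        ((N : ℝ) + i + 1 / 2) ^ (-(k / b : ℝ)) := by
      rw [curve_zero, hσ, osc_rpow b k hb _ hw1, abs_mul, abs_of_nonneg (rpow_nonneg hw1.le _)]
      have : π * ((N : ℝ) + i + 1 / 2) = π / 2 + ((N + i : ℕ) : ℝ) * π := by push_cast; ring
      rw [this, sin_add_nat_mul_pi]
      simp
    have hneg : -(k / b : ℝ) ≤ 0 := by
      have : (0 : ℝ) ≤ k / b := by positivity
      linarith
    apply one_osc h0 hΦ δ t _ hδ0 hδ ht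
    · rw [curve_zero, hσ, osc_rpow b k hb _ hw0]
      have : π * ((N : ℝ) + i) = ((N + i : ℕ) : ℝ) * π := by push_cast; ring
      rw [this, sin_nat_mul_pi, mul_zero]
    · rw [habs]
      have : ((N : ℝ) + i + 1 / 2) ^ (-(k / b : ℝ)) ≤ M ^ (-(k / b : ℝ)) :=
        rpow_le_rpow_of_nonpos (by linarith) (by linarith) hneg
      rw [hMK] at this
      calc _ ≤ E⁻¹ * exp t := by gcongr
        _ = δ := by rw [hE]; field_simp
    · rw [habs, ← hMK, ← mul_rpow (by norm_num) (by linarith)]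
      exact rpow_le_rpow_of_nonpos hw1 (by linarith) hneg
    · rw [curve_one, abs_mul, abs_of_pos hδ0]
      have := hmaps (show (N : ℝ) + i + 1 / 2 ∈ Ici 1 by
        simp only [mem_Ici]; linarith)
      rw [abs_of_nonneg this.1]
      nlinarith [this.2]
  refine le_trans ?_ (Finset.sum_le_sum hterm)
  rw [Finset.sum_const, Finset.card_range, nsmul_eq_mul, ← ENNReal.ofReal_natCast,
    ← ENNReal.ofReal_mul (by positivity)]
  apply ENNReal.ofReal_le_ofReal
  have hMe : exp (b / k * t) ≤ M := by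
    rw [mul_comm, exp_mul]
    exact rpow_le_rpow (exp_pos t).le hEe (by positivity)
  have hsplit : exp ((b / k - 1 + (1 - δ ^ 2) ^ 2) * t) =
      exp (b / k * t) * (exp t)⁻¹ * exp ((1 - δ ^ 2) ^ 2 * t) := by
    rw [← exp_neg, ← exp_add, ← exp_add]; congr 1; ring
  have hEinv : E⁻¹ = δ * (exp t)⁻¹ := by rw [hE]; field_simp
  rw [hsplit, hA, hEinv]
  have hA0 : 0 ≤ 2 / π * (4 ^ (-(k / b : ℝ)) * (δ * (exp t)⁻¹)) * exp ((1 - δ ^ 2) ^ 2 * t) := by
    positivity
  calc _ = exp (b / k * t) *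
        (2 / π * (4 ^ (-(k / b : ℝ)) * (δ * (exp t)⁻¹)) * exp ((1 - δ ^ 2) ^ 2 * t)) := by ring
    _ ≤ _ := by gcongr; exact hMe.trans hMN

theorem result :
    ∃ (u : ℝ → EuclideanSpace ℝ (Fin 2) → EuclideanSpace ℝ (Fin 2))
      (p : ℝ → EuclideanSpace ℝ (Fin 2) → ℝ)
      (Φ : ℝ → EuclideanSpace ℝ (Fin 2) → EuclideanSpace ℝ (Fin 2)),
      ContDiff ℝ ⊤ (fun q : ℝ × EuclideanSpace ℝ (Fin 2) => u q.1 q.2) ∧
      ContDiff ℝ ⊤ (fun q : ℝ × EuclideanSpace ℝ (Fin 2) => p q.1 q.2) ∧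
      (∀ t x y, toTorus x = toTorus y → u t x = u t y ∧ p t x = p t y) ∧
      (∀ t x, deriv (fun s => u s x) t + fderiv ℝ (u t) x (u t x) + gradient (p t) x = 0) ∧
      (∀ t x, ∑ i, fderiv ℝ (u t) x (EuclideanSpace.single i 1) i = 0) ∧
      (∀ t x, ‖u t x‖ ≤ 1 ∧ ‖fderiv ℝ (u t) x‖ ≤ 1) ∧
      (∀ x, Φ 0 x = x) ∧
      (∀ t x, HasDerivAt (fun s => Φ s x) (u t (Φ t x)) t) ∧
      (∀ t x y, toTorus x = toTorus y → toTorus (Φ t x) = toTorus (Φ t y)) ∧
      ∀ r : ℕ, 1 ≤ r → ∀ γ : ℝ, γ < 1 / (r : ℝ) →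
        ∃ (l : ℝ → EuclideanSpace ℝ (Fin 2)) (c : ℝ),
          ContDiff ℝ r l ∧ (∀ s, deriv l s ≠ 0) ∧
          Set.InjOn (toTorus ∘ l) (Set.Icc 0 1) ∧ 0 < c ∧
          ∀ t : ℝ, 0 ≤ t →
            eVariationOn (toTorus ∘ Φ t ∘ l) (Set.Icc 0 1) < ⊤ ∧
            ENNReal.ofReal (c * Real.exp (γ * t)) ≤
              eVariationOn (toTorus ∘ Φ t ∘ l) (Set.Icc 0 1) := by
  choose α h0 hα using exists_global U U_lipschitz norm_U_le
  refine ⟨fun _ => U, fun _ => Pr, fun t x => α x t, U_contDiff.comp contDiff_snd,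
    Pr_contDiff.comp contDiff_snd, fun _ _ _ h => U_descends h, fun t x => ?_,
    fun _ x => divfree x, fun _ x => ⟨norm_U_le x, norm_fderiv_U_le x⟩, h0,
    fun t x => hα x t,
    fun t x y h => flow_descends (Φ := fun t x => α x t) h0 (fun t x => hα x t) t h, ?_⟩
  · simpa using euler x
  intro r hr γ hγ
  have hr' : (0 : ℝ) < r := by exact_mod_cast hr
  have hγ' : 0 < 1 - γ * r := by
    rw [lt_div_iff₀ hr'] at hγ; linarith
  obtain ⟨b0, hb0⟩ := exists_nat_gt (γ * (r + 1) / (1 - γ * r))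
  set b : ℕ := b0 + 1 with hbdef
  have hb : 1 ≤ b := by omega
  have hbγ : γ * (r + 1) < b * (1 - γ * r) := by
    rw [div_lt_iff₀ hγ'] at hb0
    rw [hbdef]; push_cast; nlinarith
  set k : ℕ := r * (b + 1) + 1 with hkdef
  have hk : 1 ≤ k := by omega
  have hk' : (0 : ℝ) < k := by exact_mod_cast hk
  have hη : 0 < (b : ℝ) / k - γ := by
    rw [sub_pos, lt_div_iff₀ hk', hkdef]; push_cast; nlinarith
  set δ : ℝ := min (1 / 2) (b / k - γ) with hδdef
  have hδ0 : 0 < δ := lt_min (by norm_num) hη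
  have hδ : δ ≤ 1 / 2 := min_le_left _ _
  have hδη : δ ≤ b / k - γ := min_le_right _ _
  have hcd := curve_contDiff b r k le_rfl δ
  have hr1 : (1 : WithTop ℕ∞) ≤ r := by exact_mod_cast hr
  refine ⟨curve b k δ, 2 / π * 4 ^ (-(k / b : ℝ)) * δ, hcd, fun s hs => ?_, ?_, by positivity,
    fun t ht => ⟨?_, ?_⟩⟩
  · have hd : HasDerivAt (curve b k δ) 0 s := by
      rw [← hs]; exact (hcd.differentiable (by positivity) s).hasDerivAt
    have h1 := (hasFDerivAt_coord (curve b k δ s) 1).comp_hasDerivAt s hd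
    have h2 : HasDerivAt (fun s : ℝ => δ * s) δ s := by
      simpa using (hasDerivAt_id s).const_mul δ
    have h3 : ((fun y : EuclideanSpace ℝ (Fin 2) => y 1) ∘ curve b k δ) = fun s => δ * s := by
      funext s; simp
    rw [h3] at h1
    have := h1.unique h2
    simp at this
    exact hδ0.ne this
  · intro s hs s' hs' h
    have h1 : ((δ * s : ℝ) : AddCircle (2 * π)) = ((δ * s' : ℝ) : AddCircle (2 * π)) := by
      have := congrArg (fun z : PiLp 2 (fun _ : Fin 2 => AddCircle (2 * π)) => z 1) h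
      simpa [toTorus_apply] using this
    have hpi := pi_gt_three
    have : Fact (0 < 2 * π) := ⟨by positivity⟩
    rw [AddCircle.coe_eq_coe_iff_of_mem_Ico (a := 0)
      ⟨mul_nonneg hδ0.le hs.1, by nlinarith [hs.2]⟩
      ⟨mul_nonneg hδ0.le hs'.1, by nlinarith [hs'.2]⟩] at h1
    exact mul_left_cancel₀ hδ0.ne' h1
  · obtain ⟨K, hK⟩ := ((hcd.of_le hr1).locallyLipschitz.locallyLipschitzOn
      (s := Icc 0 1)).exists_lipschitzOnWith_of_compact isCompact_Icc
    have h1 : BoundedVariationOn (curve b k δ) (Icc 0 1) := by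
      simpa using hK.locallyBoundedVariationOn 0 1 (by simp) (by simp)
    have h2 := toTorus_lipschitz.comp_boundedVariationOn
      ((flow_lipschitz (Φ := fun t x => α x t) h0 (fun t x => hα x t) t ht).comp_boundedVariationOn
        h1)
    exact lt_top_iff_ne_top.2 h2
  · refine le_trans (ENNReal.ofReal_le_ofReal ?_)
      (growth (Φ := fun t x => α x t) h0 (fun t x => hα x t) b k hb hk δ hδ0 hδ t ht)
    gcongr
    nlinarith [sq_nonneg (δ ^ 2)]

end Pool.Agent.Results.MP_d5a48f_an.CellularStretch
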